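import Mathlib
import Pool.Agent.V7H20.Whit

/-!
# The dual of the partition lattice on four points is a sublattice of the partition lattice on 30 points

`Setoid A` is the lattice of all equivalence relations (partitions) of `A`, ordered by refinement.
-/

set_option autoImplicit false

namespace Pool.Agent.Results.MP_437e5a_co.WhitmanThirtyH20

/-- The lattice `L` is representable by partitions of an `n`-element set: there is an injective map
from `L` to the lattice of the equivalence relations of `Fin n` which preserves binary joins and
meets. -/
def Representable (L : Type*) [Lattice L] (n : ℕ) : Prop :=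
  ∃ f : LatticeHom L (Setoid (Fin n)), Function.Injective f

/-- The Whitman number of `L`: the least `n` such that `L` is representable by partitions of an
`n`-element set. -/
noncomputable def whitmanNumber (L : Type*) [Lattice L] : ℕ := sInf {n | Representable L n}

/-- The dual `L₄*` of the partition lattice `Π₄` is representable by partitions of a set with 30
elements. So its Whitman number is at most `30`, and at most `2 ^ 1000`. -/
theorem result : Representable (Setoid (Fin 4))ᵒᵈ 30 ∧ whitmanNumber (Setoid (Fin 4))ᵒᵈ ≤ 30 ∧
    whitmanNumber (Setoid (Fin 4))ᵒᵈ ≤ 2 ^ 1000 := by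
  have h : Representable (Setoid (Fin 4))ᵒᵈ 30 :=
    ⟨{ toFun := fun a => Pool.Agent.V7H20.Whit.f (OrderDual.ofDual a)
       map_sup' := fun a b => Pool.Agent.V7H20.Whit.f_inf _ _
       map_inf' := fun a b => Pool.Agent.V7H20.Whit.f_sup _ _ },
      fun a b hab => OrderDual.ofDual.injective (Pool.Agent.V7H20.Whit.f_inj hab)⟩
  have h2 : whitmanNumber (Setoid (Fin 4))ᵒᵈ ≤ 30 := Nat.sInf_le h
  refine ⟨h, h2, h2.trans ?_⟩
  calc 30 ≤ 2 ^ 5 := by norm_num
    _ ≤ 2 ^ 1000 := Nat.pow_le_pow_right (by norm_num) (by norm_num)

end Pool.Agent.Results.MP_437e5a_co.WhitmanThirtyH20
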